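import Pool.Agent.Y665.RH.Fin

/-!
# A nontrivial tau-symmetric deformation of the Riemann hierarchy in standard form with `a = 0`

`DP = ℂ[[u]][u_1, u_2, …]` is `MvPolynomial ℕ (PowerSeries ℂ)`, the variable `X k` being `u_{k+1}`, and
`EDP = DP[[ε]]`. So `Finsupp.single 1 9` is the exponent of the monomial `u_2^9`, that is of the partition
`(2^9)` of `18`.

The theorem gives a tau-symmetric deformation with Poisson operator `∂_x` and densities `h_0, h_1, …` whose
Hamiltonian `∫ h_1 dx` is in standard form with constant `a = 0`, namely `∫ h_1 dx = ∫ F dx` with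
`F = u³/6 - 25 ε^18 u_2^9 + …`. So `a = 0` does not force all `a_λ` to vanish, which refutes part (ii).
-/

set_option autoImplicit false
set_option linter.all false

namespace Pool.Agent.Results.MP_34ac72_mp.DisproofPartTwo

open MvPolynomial Pool.Agent.H93RH Pool.Agent.Y665.RH

/-- There is a tau-symmetric deformation of the Riemann hierarchy (Poisson operator `∂_x`) in standard form
with `a = 0` and `a_{(2^9)} = -25`. -/
theorem result : ∃ (h : ℕ → EDP) (F : EDP), IsTauSymmetric h ∧ IsStandardForm 0 F ∧
    SameFunctional (h 1) F ∧
    coeff (Finsupp.single 1 9) (PowerSeries.coeff 18 F) = PowerSeries.C (-25) :=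
  Pool.Agent.Y665.RH.exists_counterexample

end Pool.Agent.Results.MP_34ac72_mp.DisproofPartTwo
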